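import Pool.Agent.E8helper18.F1.Stm
import Pool.Agent.E8helper18.QP.Box

/-! Project F1D, part BOX: the count in a box, with the symmetry of the symbols as hypothesis
(adapted from `Pool/Agent/E8helper18/QP/Box.lean`). -/

set_option autoImplicit false

open scoped Classical

namespace Pool.Agent.E8helper13.F1

open Finset
open Pool.Agent.E8helper18.CP (KW Am kw_iff dbl gda_congr s_la mem_prs')
open Pool.Agent.Y703.CQ (nr sg prs HB S_EQ GdA S_LA c2)
open Pool.Agent.R413.SQ.BOX (nr_self nr_symm ez0 ez0_coe sum_un HB_sub)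
open Pool.Agent.E8helper18.QP (P1 Kc Nd Kc_iff KW_congr lb LN nd_iff)
open Pool.Agent.E8helper18.F1 (S_BOX)

section one
variable {ι : Type} [Fintype ι] {S₀ : Finset ℕ} {p : ι → ℕ} [LinearOrder ι] {J1 : Finset ι}

theorem ext_eq (hpp : ∀ i j, nr (p i) (p j) = nr (p j) (p i)) (k : ι) (hk : k ∈ J1) (l : ι) :
    nr (p k) (p l) * 1 =
      Pool.Agent.Y703.CQ.ext (fun e : prs J1 => nr (p e.1.1) (p e.1.2)) k l := by
  rw [mul_one]
  unfold Pool.Agent.Y703.CQ.ext
  by_cases h : (k, l) ∈ prs J1
  · rw [dif_pos h]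
  · rw [dif_neg h]
    by_cases hlk : l = k
    · subst hlk
      rw [dif_neg (fun h' => h h'.1), nr_self]
    · have h1 : l ∈ J1 ∧ ¬ k < l := by
        by_contra hcon
        apply h
        rw [mem_prs']
        refine ⟨hk, hlk, fun hl => ?_⟩
        by_contra hkl
        exact hcon ⟨hl, hkl⟩
      have h2 : (l, k) ∈ prs J1 := by
        rw [mem_prs']
        exact ⟨h1.1, fun h => hlk h.symm, fun _ => lt_of_le_of_ne (not_lt.1 h1.2) hlk⟩
      rw [dif_pos ⟨h2, hk⟩]
      exact hpp k l

theorem gd_iff (hp : Function.Injective p) (hpp : ∀ i j, nr (p i) (p j) = nr (p j) (p i))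
    (hS : ∀ u ∈ S₀, ∀ v ∈ S₀, nr u v = nr v u) (hSp : ∀ u ∈ S₀, ∀ i, nr u (p i) = nr (p i) u)
    (hd : ∀ i, p i ∉ S₀) (l₀ : ι) (hJ : ∀ k, k ∈ J1 ↔ k ≠ l₀) :
    Kc (S₀ ∪ univ.image p) ↔ GdA univ J1
      (fun u v : S₀ => nr u v) (fun (u : S₀) l => lb S₀ (p l) u) (fun k (u : S₀) => lb S₀ (p k) u)
      (Pool.Agent.Y703.CQ.ext fun e : prs J1 => nr (p e.1.1) (p e.1.2))
      (fun _ => 0) (fun _ => 0) := by
  set f : S₀ ⊕ ι → ℕ := Sum.elim (fun u => (u : ℕ)) p with hf
  have hfi : Function.Injective f := by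
    rintro (a | a) (b | b) h
    · exact congrArg _ (Subtype.ext h)
    · exact absurd a.2 (by rw [show (a : ℕ) = p b from h]; exact hd b)
    · exact absurd b.2 (by rw [← show p a = (b : ℕ) from h]; exact hd a)
    · exact congrArg _ (hp h)
  have him : univ.image f = S₀ ∪ univ.image p := by
    ext x
    rw [Finset.mem_image, Finset.mem_union, Finset.mem_image]
    constructor
    · rintro ⟨(a | a), -, rfl⟩
      · exact Or.inl a.2
      · exact Or.inr ⟨a, Finset.mem_univ _, rfl⟩
    · rintro (h | ⟨i, -, rfl⟩)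
      · exact ⟨Sum.inl ⟨x, h⟩, Finset.mem_univ _, rfl⟩
      · exact ⟨Sum.inr i, Finset.mem_univ _, rfl⟩
  rw [Kc_iff _ f hfi him]
  have h1 : KW (fun w u => nr (f w) (f u)) ↔ KW (Am (fun u v : S₀ => nr u v)
      (fun k (u : S₀) => lb S₀ (p k) u) (fun k l => nr (p k) (p l))) := by
    refine KW_congr fun w u _ => ?_
    rcases w with w | w <;> rcases u with u | u
    · rfl
    · exact hSp _ w.2 u
    · rfl
    · rfl
  rw [h1, kw_iff (fun u v => hS _ u.2 _ v.2) _ (fun i j => hpp i j) l₀]
  have hJ' : J1 = univ.erase l₀ := by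
    ext k
    rw [hJ, Finset.mem_erase]
    simp
  rw [← hJ']
  exact gda_congr fun k hk l => ext_eq hpp k hk l

end one

/-- **The count in a box.** -/
theorem t_BOX : S_BOX := by
  intro hEQ ι _ _ l₀ J1 hJ C X κ S₀ hκ hCX hHB hSS hC hdis hCC
  have : Nonempty ι := ⟨l₀⟩
  set cc : ℝ := 2 * (4 ^ S₀.card / 2 ^ J1.card) with hcc
  set R : ℝ := 2 ^ (prs J1).card * (κ * ∏ j, (X j : ℝ)) with hR
  have hcc0 : 0 ≤ cc := by positivity
  have hR0 : 0 ≤ R := mul_nonneg (by positivity)
    (mul_nonneg hκ (Finset.prod_nonneg fun j _ => by positivity))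
  -- facts on tuples
  have hinj : ∀ p ∈ Fintype.piFinset C, Function.Injective p := by
    intro p hp i j hij
    rw [Fintype.mem_piFinset] at hp
    by_contra hne
    have h1 := Finset.disjoint_left.1 (hdis i j hne) (hp i)
    rw [hij] at h1
    exact h1 (hp j)
  have hd : ∀ p ∈ Fintype.piFinset C, ∀ i, p i ∉ S₀ := by
    intro p hp i
    rw [Fintype.mem_piFinset] at hp
    exact (hC i _ (hp i)).1
  have hpp : ∀ p ∈ Fintype.piFinset C, ∀ i j, nr (p i) (p j) = nr (p j) (p i) := by
    intro p hp i j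
    rw [Fintype.mem_piFinset] at hp
    by_cases hij : i = j
    · rw [hij]
    · exact hCC i j hij _ (hp i) _ (hp j)
  have hSp : ∀ p ∈ Fintype.piFinset C, ∀ u ∈ S₀, ∀ i, nr u (p i) = nr (p i) u := by
    intro p hp u hu i
    rw [Fintype.mem_piFinset] at hp
    exact (hC i _ (hp i)).2 u hu
  -- the part with given labels
  have h1 : ∀ β : ι → S₀ → ZMod 2, LN S₀ β →
      |(((Fintype.piFinset C).filter fun p => (fun i => lb S₀ (p i)) = β ∧
          Kc (S₀ ∪ univ.image p)).card : ℝ) -
        c2 * (((Fintype.piFinset C).filter fun p => (fun i => lb S₀ (p i)) = β).card : ℝ)| ≤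
      cc * (((Fintype.piFinset C).filter fun p => (fun i => lb S₀ (p i)) = β).card : ℝ) + R := by
    intro β hβ
    by_cases hemp : ((Fintype.piFinset C).filter fun p => (fun i => lb S₀ (p i)) = β) = ∅
    · have he2 : ((Fintype.piFinset C).filter fun p => (fun i => lb S₀ (p i)) = β ∧
          Kc (S₀ ∪ univ.image p)) = ∅ := by
        rw [← Finset.filter_filter, hemp, Finset.filter_empty]
      rw [he2, hemp]
      simpa using hR0
    set C' : ι → Finset ℕ := fun i => (C i).filter fun q => lb S₀ q = β i with hC'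
    have hpi : (Fintype.piFinset C).filter (fun p => (fun i => lb S₀ (p i)) = β) =
        Fintype.piFinset C' := by
      ext p
      simp only [Finset.mem_filter, Fintype.mem_piFinset, hC']
      constructor
      · rintro ⟨h2, h3⟩ i
        exact ⟨h2 i, congrFun h3 i⟩
      · intro h2
        exact ⟨fun i => (h2 i).1, funext fun i => (h2 i).2⟩
    have h2 := s_la S₀ ι univ J1 ⟨l₀, fun h => (hJ l₀).1 h rfl⟩
      (fun u v => nr u v) (fun u l => β l u) (fun k u => β k u) (fun _ => 0)
      (fun _ => 0)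
      (by
        intro u _ v _
        exact hSS u u.2 v v.2)
      (fun _ _ _ _ => rfl)
      (by
        rintro w - hw
        obtain ⟨k, hk, hk2⟩ := hβ l₀ w hw
        exact ⟨k, (hJ k).2 hk, hk2⟩)
    set Q : (prs J1 → ZMod 2) → Prop := fun α => GdA univ
      J1 (fun u v : S₀ => nr u v) (fun (u : S₀) l => β l u) (fun k (u : S₀) => β k u)
      (Pool.Agent.Y703.CQ.ext α) (fun _ => 0) (fun _ => 0) with hQ
    have h3 := hEQ ι J1 C' X κ hκ
      (fun i => (Finset.card_le_card (Finset.filter_subset _ _)).trans (hCX i))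
      (HB_sub hHB fun i q => lb S₀ q = β i) Q
    have h4 : ((Fintype.piFinset C).filter fun p => (fun i => lb S₀ (p i)) = β ∧
        Kc (S₀ ∪ univ.image p)) = ((Fintype.piFinset C').filter fun p =>
          Q fun e => nr (p e.1.1) (p e.1.2)) := by
      rw [← hpi, Finset.filter_filter]
      refine Finset.filter_congr fun p hp => ?_
      refine and_congr_right fun hl => ?_
      rw [gd_iff (hinj p hp) (hpp p hp) hSS (hSp p hp) (hd p hp) l₀ hJ]
      subst hl
      exact Iff.rfl
    have h5 : (((Fintype.piFinset C').card : ℕ) : ℝ) = ∏ j, ((C' j).card : ℝ) := by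
      rw [Fintype.card_piFinset]
      push_cast
      rfl
    rw [h4, hpi, h5]
    have h2' : |((univ.filter Q).card : ℝ) / 2 ^ (prs J1).card - c2| ≤ cc := by
      refine h2.trans (le_of_eq ?_)
      rw [hcc, Finset.card_univ, Fintype.card_coe]
    set n : ℝ := (((Fintype.piFinset C').filter fun p =>
          Q fun e => nr (p e.1.1) (p e.1.2)).card : ℝ) with hn
    set q : ℝ := ((univ.filter Q).card : ℝ) / 2 ^ (prs J1).card with hq
    set P : ℝ := ∏ j, ((C' j).card : ℝ) with hP
    have hP0 : 0 ≤ P := Finset.prod_nonneg fun j _ => by positivity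
    have h6 : |n - c2 * P| ≤ |n - q * P| + |q - c2| * P := by
      have h7 : n - c2 * P = (n - q * P) + (q - c2) * P := by ring
      have h8 : |(q - c2) * P| = |q - c2| * P := by rw [abs_mul, abs_of_nonneg hP0]
      rw [h7, ← h8]
      exact abs_add_le _ _
    have h7 : |q - c2| * P ≤ cc * P := mul_le_mul_of_nonneg_right h2' hP0
    have h8 : |n - q * P| ≤ R := h3
    linarith
  -- sum over the labels
  set LL := univ.filter (fun β : ι → S₀ → ZMod 2 => LN S₀ β) with hLL
  have hfib : ∀ T : (ι → ℕ) → Prop,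
      (((Fintype.piFinset C).filter fun p => Nd S₀ (univ.image p) ∧ T p).card : ℝ) =
      ∑ β ∈ LL, (((Fintype.piFinset C).filter fun p =>
        (fun i => lb S₀ (p i)) = β ∧ T p).card : ℝ) := by
    intro T
    rw [Finset.card_eq_sum_card_fiberwise (f := fun (p : ι → ℕ) (i : ι) => lb S₀ (p i))
      (t := LL) (by
        intro p hp
        rw [Finset.mem_coe, Finset.mem_filter] at hp
        rw [Finset.mem_coe, hLL, Finset.mem_filter]
        exact ⟨Finset.mem_univ _, (nd_iff (hinj p hp.1)).1 hp.2.1⟩)]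
    push_cast
    refine Finset.sum_congr rfl fun β hβ => ?_
    rw [hLL, Finset.mem_filter] at hβ
    congr 2
    ext p
    simp only [Finset.mem_filter]
    constructor
    · rintro ⟨⟨h3, h4, h4'⟩, h5⟩
      exact ⟨h3, h5, h4'⟩
    · rintro ⟨h3, h4, h5⟩
      refine ⟨⟨h3, ?_, h5⟩, h4⟩
      rw [nd_iff (hinj p h3), h4]
      exact hβ.2
  have hf1 := hfib fun p => Kc (S₀ ∪ univ.image p)
  have hf2 := hfib fun _ => True
  simp only [and_true] at hf2
  rw [hf1, hf2, Finset.mul_sum, ← Finset.sum_sub_distrib]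
  refine (Finset.abs_sum_le_sum_abs _ _).trans ?_
  refine (Finset.sum_le_sum fun β hβ => h1 β (Finset.mem_filter.1 hβ).2).trans ?_
  rw [Finset.sum_add_distrib, ← Finset.mul_sum, Finset.sum_const, nsmul_eq_mul]
  have h5 : ((LL.card : ℕ) : ℝ) ≤ 2 ^ (S₀.card * Fintype.card ι) := by
    have h6 : LL.card ≤ Fintype.card (ι → S₀ → ZMod 2) := Finset.card_le_univ _
    rw [Fintype.card_fun, Fintype.card_fun, ZMod.card, Fintype.card_coe, ← pow_mul] at h6
    exact_mod_cast h6
  have h6 := mul_le_mul_of_nonneg_right h5 hR0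
  rw [pow_add, mul_assoc]
  linarith

end Pool.Agent.E8helper13.F1
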